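import Pool.Agent.X88.BM.Main

/-! In every dimension `n ≥ 3` there are origin-symmetric convex bodies, arbitrarily close to the
ball, whose intersection body is farther from the ball in the Banach-Mazur distance; the distance can
grow like its power `c` for every `c < n - 1`, and never more than its power `n - 1`. -/

set_option autoImplicit false

open MeasureTheory Set Filter Topology Metric
open scoped Pointwise

namespace Pool.Agent.Results.MP_4e5529_gt.DistanceIncreases

/-- Euclidean `n`-space. -/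
abbrev E (n : ℕ) : Type := EuclideanSpace ℝ (Fin n)

/-- The closed unit ball. -/
def unitBall (n : ℕ) : Set (E n) := closedBall 0 1

/-- Origin-symmetric convex bodies: compact, convex, with nonempty interior and `K = -K`. -/
structure IsSymConvexBody {n : ℕ} (K : Set (E n)) : Prop where
  isCompact : IsCompact K
  convex : Convex ℝ K
  interior_nonempty : (interior K).Nonempty
  neg_mem : ∀ x ∈ K, -x ∈ K

/-- The hyperplane through the origin orthogonal to `u`. -/
noncomputable abbrev hyp {n : ℕ} (u : E n) : Submodule ℝ (E n) := (ℝ ∙ u)ᗮ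

/-- Lebesgue measure of the hyperplane `hyp u`. -/
noncomputable abbrev hypVol {n : ℕ} (u : E n) : Measure (hyp u) := volume

/-- The `(n-1)`-dimensional volume of the section of `K` by the hyperplane through the origin
orthogonal to `u`. -/
noncomputable def secVol {n : ℕ} (K : Set (E n)) (u : E n) : ℝ :=
  (hypVol u {y : hyp u | (y : E n) ∈ K}).toReal

/-- The intersection body: the star body whose radial function is `secVol K` on unit vectors. -/
def interBody {n : ℕ} (K : Set (E n)) : Set (E n) :=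
  {x | ∃ u : E n, ‖u‖ = 1 ∧ ∃ r : ℝ, 0 ≤ r ∧ r ≤ secVol K u ∧ x = r • u}

/-- The Banach-Mazur distance of origin-symmetric convex bodies: the infimum of the numbers
`l ≥ 1` such that `B ⊆ T A ⊆ l B` for some invertible linear map `T`. -/
noncomputable def bmDist {n : ℕ} (A B : Set (E n)) : ℝ :=
  sInf {l : ℝ | 1 ≤ l ∧ ∃ T : E n ≃ₗ[ℝ] E n, B ⊆ T '' A ∧ T '' A ⊆ l • B}

theorem body_iff {n : ℕ} (K : Set (E n)) : IsSymConvexBody K ↔ Pool.Agent.H638.IB.Body K :=
  ⟨fun h => ⟨h.1, h.2, h.3, h.4⟩, fun h => ⟨h.1, h.2, h.3, h.4⟩⟩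

/-- Let `n ≥ 3`. Some origin-symmetric convex body `K` has `d(IK, B) > d(K, B)`. More precisely,
for every real `c < n - 1` and every `δ > 0` there is `K` with `1 ≤ d(K, B) ≤ 1 + δ` and
`d(IK, B) > d(K, B) ^ c`, whereas `d(IK, B) ≤ d(K, B) ^ (n - 1)` for all `K`. -/
theorem result {n : ℕ} (hn : 3 ≤ n) :
    (∃ K : Set (E n), IsSymConvexBody K ∧
      bmDist K (unitBall n) < bmDist (interBody K) (unitBall n)) ∧
    (∀ c : ℝ, c < n - 1 → ∀ δ : ℝ, 0 < δ → ∃ K : Set (E n), IsSymConvexBody K ∧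
      IsSymConvexBody (interBody K) ∧ 1 ≤ bmDist K (unitBall n) ∧
      bmDist K (unitBall n) ≤ 1 + δ ∧
      bmDist K (unitBall n) ^ c < bmDist (interBody K) (unitBall n)) ∧
    ∀ K : Set (E n), IsSymConvexBody K →
      bmDist (interBody K) (unitBall n) ≤ bmDist K (unitBall n) ^ (n - 1) := by
  obtain ⟨N, rfl⟩ : ∃ N, n = N + 1 := ⟨n - 1, by omega⟩
  have hN : 1 ≤ N := by omega
  have h2 : ∀ c : ℝ, c < ((N + 1 : ℕ) : ℝ) - 1 → ∀ δ : ℝ, 0 < δ → ∃ K : Set (E (N + 1)),
      IsSymConvexBody K ∧ IsSymConvexBody (interBody K) ∧ 1 ≤ bmDist K (unitBall (N + 1)) ∧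
      bmDist K (unitBall (N + 1)) ≤ 1 + δ ∧
      bmDist K (unitBall (N + 1)) ^ c < bmDist (interBody K) (unitBall (N + 1)) := by
    intro c hc δ hδ
    have hc' : c < N := by
      push_cast at hc
      linarith
    obtain ⟨K, hK, h1, h2⟩ := Pool.Agent.X88.BM.exists_increase hN c hc' δ hδ
    exact ⟨K, (body_iff K).2 hK, (body_iff _).2 (Pool.Agent.X88.BM.IBB hN K hK).1,
      Pool.Agent.X88.BM.one_le_bm K hK, h1, h2⟩
  refine ⟨?_, h2, fun K hK => ?_⟩
  · obtain ⟨K, hK, -, -, -, h⟩ := h2 1 (by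
      have : (3 : ℝ) ≤ ((N + 1 : ℕ) : ℝ) := by exact_mod_cast hn
      linarith) 1 one_pos
    rw [Real.rpow_one] at h
    exact ⟨K, hK, h⟩
  · exact Pool.Agent.X88.BM.bm_IB_le hN K ((body_iff K).1 hK)

end Pool.Agent.Results.MP_4e5529_gt.DistanceIncreases
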